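import Pool.Agent.Y37.NE.Loc
import Pool.Agent.Y5.E.Stm

/-! Maximal solutions for abstract quadratic systems in weighted `ℓ²`. -/

open Set Filter Topology MeasureTheory

set_option autoImplicit false

namespace Pool.Agent.Y37.NE

open Pool.Agent.Y5.E

variable {I : Type} {d r : I → ℝ} {c : I → I → I → ℝ}

theorem asol_mono {T T' : ℝ} {x : I → ℝ → ℝ} (h : ASol2 d r c T x) (hT : T' ≤ T) :
    ASol2 d r c T' x :=
  ⟨fun n t ht => (h.deriv n t ⟨ht.1, lt_of_lt_of_le ht.2 hT⟩).mono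
    (fun _ hr => ⟨hr.1, lt_of_lt_of_le hr.2 hT⟩), fun t ht => h.bdd t (lt_of_lt_of_le ht hT)⟩

/-- a family of solutions on longer and longer intervals gives a solution -/
theorem asol_of_local {T : ℝ} {x : I → ℝ → ℝ}
    (h : ∀ t < T, ∃ T', t < T' ∧ ∃ y, ASol2 d r c T' y ∧ ∀ n, ∀ s ∈ Ico 0 T', x n s = y n s) :
    ASol2 d r c T x := by
  constructor
  · intro n t ht
    obtain ⟨T', hT', y, hy, hxy⟩ := h t ht.2
    have h1 := hy.deriv n t ⟨ht.1, hT'⟩
    have h2 : (fun m => x m t) = fun m => y m t := by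
      ext m; exact hxy m t ⟨ht.1, hT'⟩
    rw [h2, hxy n t ⟨ht.1, hT'⟩]
    have h3 : HasDerivWithinAt (x n)
        (-(d n * y n t) + bl c (fun m => y m t) (fun m => y m t) n) (Ico 0 T') t :=
      h1.congr (fun s hs => hxy n s hs) (hxy n t ⟨ht.1, hT'⟩)
    refine h3.mono_of_mem_nhdsWithin ?_
    have h4 : Iio T' ∈ 𝓝 t := Iio_mem_nhds hT'
    filter_upwards [mem_nhdsWithin_of_mem_nhds h4, self_mem_nhdsWithin] with s hs hs'
    exact ⟨hs'.1, hs⟩
  · intro t ht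
    obtain ⟨T', hT', y, hy, hxy⟩ := h t ht
    obtain ⟨M, hM⟩ := hy.bdd t hT'
    refine ⟨M, fun s hs => ?_⟩
    have h2 : (fun m => x m s) = fun m => y m s := by
      ext m; exact hxy m s ⟨hs.1, lt_of_le_of_lt hs.2 hT'⟩
    rw [h2]
    exact hM s hs

theorem asol_of_csol {T : ℝ} {x : I → ℝ → ℝ} (h : CSol d r c T x) : ASol2 d r c T x := by
  obtain ⟨M, hM⟩ := h.bdd
  exact ⟨fun n t ht => (h.deriv n t ⟨ht.1, ht.2.le⟩).mono Ico_subset_Icc_self,
    fun T' hT' => ⟨M, fun t ht => hM t ⟨ht.1, ht.2.trans hT'.le⟩⟩⟩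

/-- continuation of a bounded solution -/
theorem extend (hA : Adm d r c) {T : ℝ} (hT : 0 < T) {x : I → ℝ → ℝ} (hx : ASol2 d r c T x)
    {M : ℝ} (hM : ∀ t ∈ Ico 0 T, nk r 1 (fun a => x a t) ≤ M) :
    ∃ T' > T, ∃ y, ASol2 d r c T' y ∧ ∀ n, y n 0 = x n 0 := by
  obtain ⟨τ, hτ, hloc⟩ := local_ex hA 0 M
  simp only [zero_add] at hloc
  have hS : ∀ t ∈ Ico 0 T, Sk r 1 (fun a => x a t) := by
    intro t ht
    obtain ⟨M', hM'⟩ := hx.bdd t ht.2
    exact (hM' t ⟨ht.1, le_rfl⟩).1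
  set t₀ := max 0 (T - τ / 2) with ht₀
  have ht₀0 : 0 ≤ t₀ := le_max_left _ _
  have ht₀T : t₀ < T := max_lt hT (by linarith)
  have ht₀1 : T - τ / 2 ≤ t₀ := le_max_right _ _
  obtain ⟨y, hy0, hy, -⟩ := hloc (fun n => x n t₀) (hS t₀ ⟨ht₀0, ht₀T⟩) (hM t₀ ⟨ht₀0, ht₀T⟩)
  -- agreement
  have hag : ∀ n, ∀ t ∈ Ico t₀ T, x n t = y n (t - t₀) := by
    intro n t ht
    have h1 : CSol d r c (t - t₀) (fun n r => x n (t₀ + r)) :=
      CSol.shift (csol_of hx ht.2) ht₀0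
    have h2 : CSol d r c (t - t₀) y := CSol.mono hy (by linarith [ht.2])
    have h3 := csol_uniq hA h1 h2 (fun n => by simp [hy0]) n (t - t₀)
      ⟨by linarith [ht.1], le_rfl⟩
    simpa using h3
  refine ⟨t₀ + τ, by linarith, fun n t => if t < T then x n t else y n (t - t₀), ⟨?_, ?_⟩, ?_⟩
  · intro n t ht
    rcases lt_or_ge t T with htT | htT
    · have h1 := hx.deriv n t ⟨ht.1, htT⟩
      have h2 : (fun m => if t < T then x m t else y m (t - t₀)) = fun m => x m t := by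
        ext m; rw [if_pos htT]
      rw [h2, if_pos htT]
      have h3 : HasDerivWithinAt (fun t => if t < T then x n t else y n (t - t₀))
          (-(d n * x n t) + bl c (fun m => x m t) (fun m => x m t) n) (Ico 0 T) t :=
        h1.congr (fun r hr => if_pos hr.2) (if_pos htT)
      refine h3.mono_of_mem_nhdsWithin ?_
      have h4 : Iio T ∈ 𝓝 t := Iio_mem_nhds htT
      filter_upwards [mem_nhdsWithin_of_mem_nhds h4, self_mem_nhdsWithin] with r hr hr'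
      exact ⟨hr'.1, hr⟩
    · have h2 : (fun m => if t < T then x m t else y m (t - t₀)) = fun m => y m (t - t₀) := by
        ext m; rw [if_neg (not_lt.2 htT)]
      rw [h2, if_neg (not_lt.2 htT)]
      have h1 := hy.deriv n (t - t₀) ⟨by linarith, by linarith [ht.2]⟩
      have h3 : HasDerivAt (y n) (-(d n * y n (t - t₀)) +
          bl c (fun m => y m (t - t₀)) (fun m => y m (t - t₀)) n) (t - t₀) :=
        h1.hasDerivAt (Icc_mem_nhds (by linarith) (by linarith [ht.2]))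
      have h4 := h3.comp_sub_const t t₀
      have h5 : (fun r => if r < T then x n r else y n (r - t₀)) =ᶠ[𝓝 t] fun r => y n (r - t₀) := by
        have h6 : Ioi t₀ ∈ 𝓝 t := Ioi_mem_nhds (by linarith)
        filter_upwards [h6] with r hr
        split_ifs with h7
        · exact hag n r ⟨le_of_lt hr, h7⟩
        · rfl
      exact (h4.congr_of_eventuallyEq h5).hasDerivWithinAt
  · intro T' hT'
    obtain ⟨M', hM'⟩ := hy.bdd
    refine ⟨max M M', fun t ht => ?_⟩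
    rcases lt_or_ge t T with htT | htT
    · have h2 : (fun m => if t < T then x m t else y m (t - t₀)) = fun m => x m t := by
        ext m; rw [if_pos htT]
      rw [h2]
      exact ⟨hS t ⟨ht.1, htT⟩, (hM t ⟨ht.1, htT⟩).trans (le_max_left _ _)⟩
    · have h2 : (fun m => if t < T then x m t else y m (t - t₀)) = fun m => y m (t - t₀) := by
        ext m; rw [if_neg (not_lt.2 htT)]
      rw [h2]
      obtain ⟨h3, h4⟩ := hM' (t - t₀) ⟨by linarith, by linarith [ht.2]⟩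
      exact ⟨h3, h4.trans (le_max_right _ _)⟩
  · intro n
    exact if_pos hT

theorem rapid_of (hA : Adm d r c) {T : ℝ} {x : I → ℝ → ℝ} (hx : ASol2 d r c T x)
    (h0 : ∀ k : ℕ, Sk r k (fun a => x a 0)) : Rapid r T x := by
  intro k T' hT'
  have hc := csol_of hx hT'
  obtain ⟨M, hM⟩ := persist hA k hc (h0 (k + 1))
  exact ⟨M, fun t ht => ⟨Sk_mono hA.r1 (Nat.le_succ k) (hM t ht).1,
    (nk_mono hA.r1 (Nat.le_succ k) (hM t ht).1).trans (hM t ht).2⟩⟩

theorem t_ABS2 : S_ABS2 := by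
  intro I d r c hA
  have hU : ∀ (T : ℝ) (z z' : I → ℝ → ℝ), ASol2 d r c T z → ASol2 d r c T z' →
      (∀ i, z i 0 = z' i 0) → ∀ i, ∀ t ∈ Ico 0 T, z i t = z' i t := by
    intro T z z' hz hz' h0 i t ht
    exact csol_uniq hA (csol_of hz ht.2) (csol_of hz' ht.2) h0 i t ⟨ht.1, le_rfl⟩
  refine ⟨hU, fun x₀ hx₀ => ?_⟩
  have hx01 := hx₀ 1
  -- the set of existence times
  set 𝒯 := {T : ℝ | 0 < T ∧ ∃ x, (∀ n, x n 0 = x₀ n) ∧ ASol2 d r c T x} with h𝒯
  have hne : 𝒯.Nonempty := by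
    obtain ⟨τ, hτ, hloc⟩ := local_ex hA 0 (nk r 1 x₀)
    obtain ⟨x, h0, hx, -⟩ := hloc x₀ (by simpa only [zero_add] using hx01) le_rfl
    exact ⟨τ, hτ, x, h0, asol_of_csol hx⟩
  have huniq : ∀ T T' (x y : I → ℝ → ℝ), ASol2 d r c T x → ASol2 d r c T' y →
      (∀ n, x n 0 = x₀ n) → (∀ n, y n 0 = x₀ n) → ∀ n, ∀ t ∈ Ico 0 (min T T'), x n t = y n t := by
    intro T T' x y hx hy h0 h0'
    exact hU _ x y (asol_mono hx (min_le_left _ _)) (asol_mono hy (min_le_right _ _))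
      (fun n => by rw [h0, h0'])
  -- the union of the solutions
  classical
  have hsel : ∀ t : ℝ, ∃ z : I → ℝ, ∀ T ∈ 𝒯, t ∈ Ico 0 T → ∀ x : I → ℝ → ℝ, (∀ n, x n 0 = x₀ n) →
      ASol2 d r c T x → ∀ n, z n = x n t := by
    intro t
    by_cases h : ∃ T ∈ 𝒯, t ∈ Ico 0 T
    · obtain ⟨T, ⟨hT0, x, h0, hx⟩, htT⟩ := h
      refine ⟨fun n => x n t, fun T' _ htT' y h0' hy n => ?_⟩
      exact huniq T T' x y hx hy h0 h0' n t ⟨htT.1, lt_min htT.2 htT'.2⟩
    · refine ⟨fun _ => 0, fun T hT ht => absurd ⟨T, hT, ht⟩ h⟩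
  choose z hz using hsel
  set x : I → ℝ → ℝ := fun n t => z t n with hx
  have hxz : ∀ T ∈ 𝒯, ∃ y, (∀ n, y n 0 = x₀ n) ∧ ASol2 d r c T y ∧
      ∀ n, ∀ s ∈ Ico 0 T, x n s = y n s := by
    intro T hT
    obtain ⟨hT0, y, h0, hy⟩ := hT
    exact ⟨y, h0, hy, fun n s hs => hz s T ⟨hT0, y, h0, hy⟩ hs y h0 hy n⟩
  have hx0 : ∀ n, x n 0 = x₀ n := by
    obtain ⟨T, hT⟩ := hne
    obtain ⟨y, h0, -, hxy⟩ := hxz T hT
    intro n
    rw [hxy n 0 ⟨le_rfl, hT.1⟩, h0]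
  have hx0' : ∀ k : ℕ, Sk r k (fun a => x a 0) := by
    intro k
    have : (fun a => x a 0) = x₀ := funext hx0
    rw [this]
    exact hx₀ k
  refine ⟨x, hx0, ?_⟩
  by_cases hbd : BddAbove 𝒯
  · right
    set T := sSup 𝒯 with hT
    have hT0 : 0 < T := by
      obtain ⟨T', hT'⟩ := hne
      exact lt_of_lt_of_le hT'.1 (le_csSup hbd hT')
    have hR : ASol2 d r c T x := by
      apply asol_of_local
      intro t ht
      obtain ⟨T', hT', htT'⟩ := exists_lt_of_lt_csSup hne ht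
      obtain ⟨y, h0, hy, hxy⟩ := hxz T' hT'
      exact ⟨T', htT', y, hy, hxy⟩
    refine ⟨T, hT0, hR, rapid_of hA hR hx0', ?_⟩
    rintro ⟨M, hM⟩
    obtain ⟨T', hT', y, hy, hy0⟩ := extend hA hT0 hR hM
    have : T' ∈ 𝒯 := ⟨hT0.trans hT', y, fun n => by rw [hy0, hx0], hy⟩
    exact absurd (le_csSup hbd this) (not_le.2 hT')
  · left
    intro T
    have hR : ASol2 d r c T x := by
      apply asol_of_local
      intro t _
      rw [not_bddAbove_iff] at hbd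
      obtain ⟨T', hT', htT'⟩ := hbd t
      obtain ⟨y, h0, hy, hxy⟩ := hxz T' hT'
      exact ⟨T', htT', y, hy, hxy⟩
    exact ⟨hR, rapid_of hA hR hx0'⟩

end Pool.Agent.Y37.NE
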