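import Pool.Agent.Y5.E.Defs

/-! Basic estimates for abstract quadratic systems in weighted `ℓ²`. -/

open Set Filter Topology MeasureTheory

set_option autoImplicit false

namespace Pool.Agent.Y37.NE

open Pool.Agent.Y5.E

section norm
variable {I : Type} {r : I → ℝ}

theorem nk_nonneg (r : I → ℝ) (k : ℕ) (z : I → ℝ) : 0 ≤ nk r k z :=
  tsum_nonneg fun _ => sq_nonneg _

theorem wt_le (hr : ∀ i, 1 ≤ r i) {k l : ℕ} (hkl : k ≤ l) (z : I → ℝ) (i : I) :
    (r i ^ k * z i) ^ 2 ≤ (r i ^ l * z i) ^ 2 := by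
  have h1 : r i ^ k ≤ r i ^ l := pow_le_pow_right₀ (hr i) hkl
  have h2 : 0 ≤ r i ^ k := pow_nonneg (by linarith [hr i]) _
  rw [mul_pow, mul_pow]
  exact mul_le_mul_of_nonneg_right (pow_le_pow_left₀ h2 h1 2) (sq_nonneg _)

theorem Sk_mono (hr : ∀ i, 1 ≤ r i) {k l : ℕ} (hkl : k ≤ l) {z : I → ℝ} (h : Sk r l z) :
    Sk r k z :=
  Summable.of_nonneg_of_le (fun _ => sq_nonneg _) (wt_le hr hkl z) h

theorem nk_mono (hr : ∀ i, 1 ≤ r i) {k l : ℕ} (hkl : k ≤ l) {z : I → ℝ} (h : Sk r l z) :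
    nk r k z ≤ nk r l z :=
  (Sk_mono hr hkl h).tsum_le_tsum (wt_le hr hkl z) h

theorem of_finset {k : ℕ} {z : I → ℝ} {A : ℝ}
    (h : ∀ s : Finset I, ∑ i ∈ s, (r i ^ k * z i) ^ 2 ≤ A) : Sk r k z ∧ nk r k z ≤ A :=
  ⟨summable_of_sum_le (fun _ => sq_nonneg _) h,
    Real.tsum_le_of_sum_le (fun _ => sq_nonneg _) h⟩

theorem finset_le {k : ℕ} {z : I → ℝ} (h : Sk r k z) (s : Finset I) :
    ∑ i ∈ s, (r i ^ k * z i) ^ 2 ≤ nk r k z :=
  h.sum_le_tsum s fun _ _ => sq_nonneg _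

theorem sub_sq_le (x a b : ℝ) : (x * (a - b)) ^ 2 ≤ 2 * (x * a) ^ 2 + 2 * (x * b) ^ 2 := by
  nlinarith [sq_nonneg (x * (a + b))]

theorem add_sq_le (x a b : ℝ) : (x * (a + b)) ^ 2 ≤ 2 * (x * a) ^ 2 + 2 * (x * b) ^ 2 := by
  nlinarith [sq_nonneg (x * (a - b))]

theorem sub_le {k : ℕ} {z y : I → ℝ} (hz : Sk r k z) (hy : Sk r k y) :
    Sk r k (fun a => z a - y a) ∧ nk r k (fun a => z a - y a) ≤ 2 * nk r k z + 2 * nk r k y := by
  have h1 : Summable fun i => 2 * (r i ^ k * z i) ^ 2 + 2 * (r i ^ k * y i) ^ 2 :=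
    (hz.mul_left 2).add (hy.mul_left 2)
  have h2 : Sk r k (fun a => z a - y a) :=
    Summable.of_nonneg_of_le (fun _ => sq_nonneg _) (fun i => sub_sq_le _ _ _) h1
  refine ⟨h2, (h2.tsum_le_tsum (fun i => sub_sq_le _ _ _) h1).trans (le_of_eq ?_)⟩
  rw [(hz.mul_left 2).tsum_add (hy.mul_left 2), tsum_mul_left, tsum_mul_left]
  rfl

theorem add_le {k : ℕ} {z y : I → ℝ} (hz : Sk r k z) (hy : Sk r k y) :
    Sk r k (fun a => z a + y a) ∧ nk r k (fun a => z a + y a) ≤ 2 * nk r k z + 2 * nk r k y := by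
  have h1 : Summable fun i => 2 * (r i ^ k * z i) ^ 2 + 2 * (r i ^ k * y i) ^ 2 :=
    (hz.mul_left 2).add (hy.mul_left 2)
  have h2 : Sk r k (fun a => z a + y a) :=
    Summable.of_nonneg_of_le (fun _ => sq_nonneg _) (fun i => add_sq_le _ _ _) h1
  refine ⟨h2, (h2.tsum_le_tsum (fun i => add_sq_le _ _ _) h1).trans (le_of_eq ?_)⟩
  rw [(hz.mul_left 2).tsum_add (hy.mul_left 2), tsum_mul_left, tsum_mul_left]
  rfl

theorem abs_le_nk (hr : ∀ i, 1 ≤ r i) {k : ℕ} {z : I → ℝ} (h : Sk r k z) (i : I) :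
    |z i| ≤ √(nk r k z) := by
  apply Real.abs_le_sqrt
  have h1 := finset_le h {i}
  rw [Finset.sum_singleton] at h1
  refine le_trans ?_ h1
  have h2 := wt_le hr (Nat.zero_le k) z i
  rwa [pow_zero, one_mul] at h2

theorem sq_summable (hr : ∀ i, 1 ≤ r i) {z : I → ℝ} (h : Sk r 1 z) :
    Summable (fun a => z a ^ 2) ∧ ∑' a, z a ^ 2 ≤ nk r 1 z := by
  have h1 := Sk_mono hr (Nat.zero_le 1) h
  have h2 := nk_mono hr (Nat.zero_le 1) h
  simp only [Sk, nk, pow_zero, one_mul] at h1 h2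
  exact ⟨h1, by simpa only [nk, pow_one] using h2⟩

theorem Sk_zero (r : I → ℝ) (k : ℕ) : Sk r k (fun _ => 0) := by
  unfold Sk
  simp only [mul_zero, ne_eq, OfNat.ofNat_ne_zero, not_false_eq_true, zero_pow]
  exact summable_zero

end norm

section bil
variable {I : Type} {d r : I → ℝ} {c : I → I → I → ℝ}

theorem bl_sub_left (hA : Adm d r c) {z z' y : I → ℝ} (hz : Sk r 1 z) (hz' : Sk r 1 z')
    (hy : Sk r 1 y) (i : I) :
    bl c (fun a => z a - z' a) y i = bl c z y i - bl c z' y i := by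
  unfold bl
  rw [← (hA.summ i z y hz hy).tsum_sub (hA.summ i z' y hz' hy)]
  exact tsum_congr fun p => by ring

theorem bl_sub_right (hA : Adm d r c) {z y y' : I → ℝ} (hz : Sk r 1 z) (hy : Sk r 1 y)
    (hy' : Sk r 1 y') (i : I) :
    bl c z (fun a => y a - y' a) i = bl c z y i - bl c z y' i := by
  unfold bl
  rw [← (hA.summ i z y hz hy).tsum_sub (hA.summ i z y' hz hy')]
  exact tsum_congr fun p => by ring

theorem bl_diff (hA : Adm d r c) {z y : I → ℝ} (hz : Sk r 1 z) (hy : Sk r 1 y) (i : I) :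
    bl c z z i - bl c y y i = bl c (fun a => z a - y a) z i + bl c y (fun a => z a - y a) i := by
  rw [bl_sub_left hA hz hy hz, bl_sub_right hA hy hz hy]
  ring

/-- the estimate with a nonnegative constant -/
theorem est' (hA : Adm d r c) (k : ℕ) : ∃ C : ℝ, 0 ≤ C ∧ ∀ z y : I → ℝ, Sk r (k + 1) z →
    Sk r (k + 1) y → Summable (fun i => (r i ^ (k + 1) * bl c z y i) ^ 2 / (1 + d i)) ∧
    ∑' i, (r i ^ (k + 1) * bl c z y i) ^ 2 / (1 + d i) ≤
      C * (nk r (k + 1) z * nk r 1 y + nk r 1 z * nk r (k + 1) y) := by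
  obtain ⟨C, hC⟩ := hA.est k
  refine ⟨|C|, abs_nonneg _, fun z y hz hy => ⟨(hC z y hz hy).1, (hC z y hz hy).2.trans ?_⟩⟩
  apply mul_le_mul_of_nonneg_right (le_abs_self C)
  have h1 := nk_nonneg r (k + 1) z
  have h2 := nk_nonneg r 1 y
  have h3 := nk_nonneg r 1 z
  have h4 := nk_nonneg r (k + 1) y
  positivity

/-- the estimate for differences -/
theorem diff_est (hA : Adm d r c) : ∃ C : ℝ, 0 ≤ C ∧ ∀ z y : I → ℝ, Sk r 1 z →
    Sk r 1 y → Summable (fun i => (r i ^ 1 * (bl c z z i - bl c y y i)) ^ 2 / (1 + d i)) ∧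
    ∑' i, (r i ^ 1 * (bl c z z i - bl c y y i)) ^ 2 / (1 + d i) ≤
      C * ((nk r 1 z + nk r 1 y) * nk r 1 (fun a => z a - y a)) := by
  obtain ⟨C, hC0, hC⟩ := est' hA 0
  simp only [zero_add] at hC
  refine ⟨4 * C, by positivity, fun z y hz hy => ?_⟩
  have hzy := (sub_le hz hy).1
  obtain ⟨h1, h2⟩ := hC _ z hzy hz
  obtain ⟨h3, h4⟩ := hC y _ hy hzy
  have hle : ∀ i, (r i ^ 1 * (bl c z z i - bl c y y i)) ^ 2 / (1 + d i) ≤
      2 * ((r i ^ 1 * bl c (fun a => z a - y a) z i) ^ 2 / (1 + d i)) +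
      2 * ((r i ^ 1 * bl c y (fun a => z a - y a) i) ^ 2 / (1 + d i)) := by
    intro i
    have hd := hA.d0 i
    rw [bl_diff hA hz hy, ← mul_div_assoc, ← mul_div_assoc, ← add_div]
    apply div_le_div_of_nonneg_right (add_sq_le _ _ _) (by linarith)
  have hs := (h1.mul_left 2).add (h3.mul_left 2)
  have h5 : Summable (fun i => (r i ^ 1 * (bl c z z i - bl c y y i)) ^ 2 / (1 + d i)) :=
    Summable.of_nonneg_of_le (fun i => div_nonneg (sq_nonneg _) (by linarith [hA.d0 i])) hle hs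
  refine ⟨h5, (h5.tsum_le_tsum hle hs).trans ?_⟩
  rw [(h1.mul_left 2).tsum_add (h3.mul_left 2), tsum_mul_left, tsum_mul_left]
  calc _ ≤ 2 * (C * (nk r 1 (fun a => z a - y a) * nk r 1 z +
        nk r 1 (fun a => z a - y a) * nk r 1 z)) +
        2 * (C * (nk r 1 y * nk r 1 (fun a => z a - y a) +
        nk r 1 y * nk r 1 (fun a => z a - y a))) := by gcongr
    _ = _ := by ring

theorem loc' (hA : Adm d r c) (i : I) : ∃ C : ℝ, 0 ≤ C ∧ ∀ z y : I → ℝ, Sk r 1 z → Sk r 1 y →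
    |bl c z y i| ≤ C * √(∑' a, z a ^ 2) * √(∑' a, y a ^ 2) := by
  obtain ⟨C, hC⟩ := hA.loc i
  refine ⟨|C|, abs_nonneg _, fun z y hz hy => (hC z y hz hy).trans ?_⟩
  have h1 := Real.sqrt_nonneg (∑' a, z a ^ 2)
  have h2 := Real.sqrt_nonneg (∑' a, y a ^ 2)
  have := le_abs_self C
  gcongr

end bil

section cont
variable {I : Type} {d r : I → ℝ} {c : I → I → I → ℝ}

/-- families of continuous functions, bounded in the weighted space -/
structure Xs (r : I → ℝ) (M : ℝ) (z : I → ℝ → ℝ) : Prop where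
  cont : ∀ i, Continuous (z i)
  sk : ∀ t, Sk r 1 (fun a => z a t)
  le : ∀ t, nk r 1 (fun a => z a t) ≤ M

/-- strong continuity in the unweighted space -/
theorem Xs.strong (hr : ∀ i, 1 ≤ r i) (hf : ∀ R, {i | r i ≤ R}.Finite) {M : ℝ} {z : I → ℝ → ℝ}
    (hz : Xs r M z) (t₀ : ℝ) :
    Tendsto (fun t => ∑' a, (z a t - z a t₀) ^ 2) (𝓝 t₀) (𝓝 0) := by
  have hM : 0 ≤ M := (nk_nonneg r 1 _).trans (hz.le t₀)
  rw [Metric.tendsto_nhds]
  intro ε hε
  obtain ⟨R, hR1, hR⟩ : ∃ R : ℝ, 1 ≤ R ∧ 4 * M / R ^ 2 < ε / 2 := by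
    refine ⟨8 * M / ε + 1, ?_, ?_⟩
    · have : 0 ≤ 8 * M / ε := by positivity
      linarith
    · have h0 : 0 ≤ 8 * M / ε := by positivity
      have h1 : 0 < 8 * M / ε + 1 := by linarith
      rw [div_lt_iff₀ (by positivity)]
      have h2 : 8 * M / ε * ε = 8 * M := by field_simp
      nlinarith
  set A : Finset I := (hf R).toFinset with hA
  have hfin : Tendsto (fun t => ∑ a ∈ A, (z a t - z a t₀) ^ 2) (𝓝 t₀) (𝓝 0) := by
    have h1 : Continuous fun t => ∑ a ∈ A, (z a t - z a t₀) ^ 2 :=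
      continuous_finsetSum _ fun a _ => ((hz.cont a).sub continuous_const).pow 2
    have h2 := h1.tendsto t₀
    simpa using h2
  have h3 := (Metric.tendsto_nhds.1 hfin) (ε / 2) (by positivity)
  filter_upwards [h3] with t ht
  rw [Real.dist_eq, sub_zero] at ht ⊢
  obtain ⟨hs, hn⟩ := sub_le (hz.sk t) (hz.sk t₀)
  have hs2 := (sq_summable hr hs).1
  have h0 : 0 ≤ ∑' a, (z a t - z a t₀) ^ 2 := tsum_nonneg fun _ => sq_nonneg _
  rw [abs_of_nonneg h0]
  classical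
  have hle : ∀ a, (z a t - z a t₀) ^ 2 ≤ (if a ∈ A then (z a t - z a t₀) ^ 2 else 0) +
      (r a ^ 1 * (z a t - z a t₀)) ^ 2 / R ^ 2 := by
    intro a
    split_ifs with ha
    · have : 0 ≤ (r a ^ 1 * (z a t - z a t₀)) ^ 2 / R ^ 2 := by positivity
      linarith
    · have h4 : R < r a := by
        rw [hA, Set.Finite.mem_toFinset] at ha
        simpa using ha
      rw [zero_add, le_div_iff₀ (by positivity), mul_pow, pow_one, mul_comm]
      have h5 : R ^ 2 ≤ r a ^ 2 := by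
        apply pow_le_pow_left₀ (by linarith) h4.le
      exact mul_le_mul_of_nonneg_right h5 (sq_nonneg _)
  have hs3 : Summable fun a => (if a ∈ A then (z a t - z a t₀) ^ 2 else 0) :=
    summable_of_ne_finset_zero (s := A) (fun a ha => if_neg ha)
  have hs4 : Summable fun a => (r a ^ 1 * (z a t - z a t₀)) ^ 2 / R ^ 2 := hs.div_const _
  have h6 := hs2.tsum_le_tsum hle (hs3.add hs4)
  rw [hs3.tsum_add hs4, tsum_div_const] at h6
  have h7 : ∑' a, (if a ∈ A then (z a t - z a t₀) ^ 2 else 0) =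
      ∑ a ∈ A, (z a t - z a t₀) ^ 2 := by
    rw [tsum_eq_sum (s := A) fun a ha => if_neg ha]
    exact Finset.sum_congr rfl fun a ha => if_pos ha
  rw [h7] at h6
  have h8 : (∑' a, (r a ^ 1 * (z a t - z a t₀)) ^ 2) / R ^ 2 ≤ 4 * M / R ^ 2 := by
    apply div_le_div_of_nonneg_right _ (by positivity)
    have h9 := hz.le t
    have h10 := hz.le t₀
    unfold nk at hn h9 h10
    linarith
  have h11 := le_abs_self (∑ a ∈ A, (z a t - z a t₀) ^ 2)
  linarith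

/-- continuity of the bilinear term -/
theorem bl_cont (hA : Adm d r c) {M M' : ℝ} {z y : I → ℝ → ℝ} (hz : Xs r M z) (hy : Xs r M' y)
    (i : I) : Continuous fun t => bl c (fun a => z a t) (fun a => y a t) i := by
  obtain ⟨C, hC0, hC⟩ := loc' hA i
  rw [continuous_iff_continuousAt]
  intro t₀
  have h1 := (hz.strong hA.r1 hA.rfin t₀).sqrt
  have h2 := (hy.strong hA.r1 hA.rfin t₀).sqrt
  rw [Real.sqrt_zero] at h1 h2
  unfold ContinuousAt
  rw [tendsto_iff_dist_tendsto_zero]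
  have hb : Tendsto (fun t => C * √(∑' a, (z a t - z a t₀) ^ 2) * √M' +
      C * √M * √(∑' a, (y a t - y a t₀) ^ 2)) (𝓝 t₀) (𝓝 0) := by
    have h3 := ((h1.const_mul C).mul_const (√M')).add (h2.const_mul (C * √M))
    simpa using h3
  refine squeeze_zero (fun _ => dist_nonneg) (fun t => ?_) hb
  rw [Real.dist_eq]
  have e : bl c (fun a => z a t) (fun a => y a t) i - bl c (fun a => z a t₀) (fun a => y a t₀) i =
      bl c (fun a => z a t - z a t₀) (fun a => y a t) i +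
      bl c (fun a => z a t₀) (fun a => y a t - y a t₀) i := by
    rw [bl_sub_left hA (hz.sk t) (hz.sk t₀) (hy.sk t), bl_sub_right hA (hz.sk t₀) (hy.sk t)
      (hy.sk t₀)]
    ring
  rw [e]
  refine (abs_add_le _ _).trans ?_
  have h4 := hC _ _ (sub_le (hz.sk t) (hz.sk t₀)).1 (hy.sk t)
  have h5 := hC _ _ (hz.sk t₀) (sub_le (hy.sk t) (hy.sk t₀)).1
  have h6 : √(∑' a, y a t ^ 2) ≤ √M' :=
    Real.sqrt_le_sqrt ((sq_summable hA.r1 (hy.sk t)).2.trans (hy.le t))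
  have h7 : √(∑' a, z a t₀ ^ 2) ≤ √M :=
    Real.sqrt_le_sqrt ((sq_summable hA.r1 (hz.sk t₀)).2.trans (hz.le t₀))
  refine add_le_add (h4.trans ?_) (h5.trans ?_)
  · have := Real.sqrt_nonneg (∑' a, (z a t - z a t₀) ^ 2)
    gcongr
  · have := Real.sqrt_nonneg (∑' a, (y a t - y a t₀) ^ 2)
    gcongr

end cont

end Pool.Agent.Y37.NE
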