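import Pool.Agent.Y37.NE.Base

/-! The Duhamel formula and uniqueness for abstract quadratic systems in weighted `ℓ²`. -/

open Set Filter Topology MeasureTheory

set_option autoImplicit false

namespace Pool.Agent.Y37.NE

open Pool.Agent.Y5.E

/-- Cauchy-Schwarz -/
theorem cs {f g : ℝ → ℝ} (hf : Continuous f) (hg : Continuous g) {t : ℝ} (ht : 0 ≤ t) :
    (∫ s in (0 : ℝ)..t, f s * g s) ^ 2 ≤
      (∫ s in (0 : ℝ)..t, f s ^ 2) * ∫ s in (0 : ℝ)..t, g s ^ 2 := by
  have hff : IntervalIntegrable (fun s => f s ^ 2) volume 0 t := (hf.pow 2).intervalIntegrable _ _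
  have hgg : IntervalIntegrable (fun s => g s ^ 2) volume 0 t := (hg.pow 2).intervalIntegrable _ _
  have hfg : IntervalIntegrable (fun s => f s * g s) volume 0 t :=
    (hf.mul hg).intervalIntegrable _ _
  have key : ∀ x : ℝ, 0 ≤ (∫ s in (0 : ℝ)..t, f s ^ 2) * (x * x) +
      (2 * ∫ s in (0 : ℝ)..t, f s * g s) * x + ∫ s in (0 : ℝ)..t, g s ^ 2 := by
    intro x
    have h : (∫ s in (0 : ℝ)..t, f s ^ 2) * (x * x) + (2 * ∫ s in (0 : ℝ)..t, f s * g s) * x +
        ∫ s in (0 : ℝ)..t, g s ^ 2 = ∫ s in (0 : ℝ)..t, (x * f s + g s) ^ 2 := by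
      have e : (fun s => (x * f s + g s) ^ 2) =
          fun s => ((x * x) * f s ^ 2 + (2 * x) * (f s * g s)) + g s ^ 2 := by
        funext s
        ring
      rw [e, intervalIntegral.integral_add ((hff.const_mul _).add (hfg.const_mul _)) hgg,
        intervalIntegral.integral_add (hff.const_mul _) (hfg.const_mul _),
        intervalIntegral.integral_const_mul, intervalIntegral.integral_const_mul]
      ring
    rw [h]
    exact intervalIntegral.integral_nonneg ht fun s _ => sq_nonneg _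
  have h := discrim_le_zero key
  unfold discrim at h
  nlinarith

/-- the Duhamel term -/
noncomputable def W (d : ℝ) (F : ℝ → ℝ) (t : ℝ) : ℝ :=
  ∫ s in (0 : ℝ)..t, Real.exp (-(d * (t - s))) * F s

theorem W_eq (d : ℝ) (F : ℝ → ℝ) (t : ℝ) :
    W d F t = Real.exp (-(d * t)) * ∫ s in (0 : ℝ)..t, Real.exp (d * s) * F s := by
  unfold W
  rw [← intervalIntegral.integral_const_mul]
  congr 1
  funext s
  rw [← mul_assoc, ← Real.exp_add]
  congr 2
  ring

theorem W_sub (d : ℝ) {F G : ℝ → ℝ} (hF : Continuous F) (hG : Continuous G) (t : ℝ) :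
    W d F t - W d G t = W d (fun s => F s - G s) t := by
  unfold W
  rw [← intervalIntegral.integral_sub]
  · congr 1
    funext s
    ring
  · exact Continuous.intervalIntegrable (by fun_prop) _ _
  · exact Continuous.intervalIntegrable (by fun_prop) _ _

theorem W_deriv (d : ℝ) {F : ℝ → ℝ} (hF : Continuous F) (t : ℝ) :
    HasDerivAt (W d F) (-(d * W d F t) + F t) t := by
  have hi : Continuous fun r => Real.exp (d * r) * F r := by fun_prop
  have e : W d F = fun t => Real.exp (-(d * t)) * ∫ s in (0 : ℝ)..t, Real.exp (d * s) * F s := by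
    funext t
    exact W_eq d F t
  have h1 : HasDerivAt (fun t => ∫ s in (0 : ℝ)..t, Real.exp (d * s) * F s)
      (Real.exp (d * t) * F t) t := (hi.integral_hasStrictDerivAt 0 t).hasDerivAt
  have h2 : HasDerivAt (fun t : ℝ => Real.exp (-(d * t))) (Real.exp (-(d * t)) * -d) t := by
    have := ((hasDerivAt_id t).const_mul d).neg.exp
    simpa using this
  have h3 := h2.mul h1
  rw [e]
  refine h3.congr_deriv ?_
  have h4 : Real.exp (-(d * t)) * Real.exp (d * t) = 1 := by
    rw [← Real.exp_add]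
    simp
  calc _ = -(d * (Real.exp (-(d * t)) * ∫ s in (0 : ℝ)..t, Real.exp (d * s) * F s)) +
        (Real.exp (-(d * t)) * Real.exp (d * t)) * F t := by ring
    _ = _ := by rw [h4, one_mul]

theorem dker {d t : ℝ} (hd : 0 ≤ d) (ht : 0 ≤ t) :
    (1 + d) * ∫ s in (0 : ℝ)..t, Real.exp (-(d * (t - s))) ^ 2 ≤ t + 1 / 2 := by
  have hc : Continuous fun s : ℝ => Real.exp (-(d * (t - s))) ^ 2 := by fun_prop
  have h1 : ∫ s in (0 : ℝ)..t, Real.exp (-(d * (t - s))) ^ 2 ≤ t := by
    have h2 : ∫ s in (0 : ℝ)..t, Real.exp (-(d * (t - s))) ^ 2 ≤ ∫ _ in (0 : ℝ)..t, (1 : ℝ) := by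
      apply intervalIntegral.integral_mono_on ht (hc.intervalIntegrable _ _)
        (continuous_const.intervalIntegrable _ _)
      intro s hs
      apply pow_le_one₀ (Real.exp_pos _).le
      rw [Real.exp_le_one_iff]
      have := mul_nonneg hd (sub_nonneg.2 hs.2)
      linarith
    simpa using h2
  have h3 : ∀ s ∈ uIcc 0 t, HasDerivAt (fun s : ℝ => Real.exp (-(d * (t - s))) ^ 2 / 2)
      (d * Real.exp (-(d * (t - s))) ^ 2) s := by
    intro s _
    have h4 : HasDerivAt (fun s : ℝ => -(d * (t - s))) d s := by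
      have := (((hasDerivAt_id s).const_sub t).const_mul d).neg
      exact this.congr_deriv (by simp)
    have h5 := (h4.exp.pow 2).div_const 2
    refine h5.congr_deriv ?_
    push_cast
    ring
  have h6 := intervalIntegral.integral_eq_sub_of_hasDerivAt h3
    ((continuous_const.mul hc).intervalIntegrable _ _)
  rw [intervalIntegral.integral_const_mul] at h6
  have h7 : d * ∫ s in (0 : ℝ)..t, Real.exp (-(d * (t - s))) ^ 2 ≤ 1 / 2 := by
    rw [h6, sub_self, mul_zero, neg_zero, Real.exp_zero]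
    have := sq_nonneg (Real.exp (-(d * (t - 0))))
    linarith
  linarith

/-- the Duhamel estimate -/
theorem duh {I : Type} {d : I → ℝ} (hd : ∀ i, 0 ≤ d i) (θ : I → ℝ) {F : I → ℝ → ℝ}
    (hF : ∀ i, Continuous (F i)) {κ : ℝ → ℝ} (hκ : Continuous κ) {t : ℝ} (ht : 0 ≤ t)
    (hb : ∀ s ∈ Icc 0 t, Summable (fun i => (θ i * F i s) ^ 2 / (1 + d i)) ∧
      ∑' i, (θ i * F i s) ^ 2 / (1 + d i) ≤ κ s) (S : Finset I) :
    ∑ i ∈ S, (θ i * W (d i) (F i) t) ^ 2 ≤ (t + 1 / 2) * ∫ s in (0 : ℝ)..t, κ s := by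
  have hc : ∀ i, Continuous fun s => (θ i * F i s) ^ 2 / (1 + d i) := fun i =>
    ((continuous_const.mul (hF i)).pow 2).div_const _
  have h1 : ∀ i, (θ i * W (d i) (F i) t) ^ 2 ≤
      (t + 1 / 2) * ∫ s in (0 : ℝ)..t, (θ i * F i s) ^ 2 / (1 + d i) := by
    intro i
    have hd1 : 0 < 1 + d i := by linarith [hd i]
    have h2 : W (d i) (F i) t ^ 2 ≤ (∫ s in (0 : ℝ)..t, Real.exp (-(d i * (t - s))) ^ 2) *
        ∫ s in (0 : ℝ)..t, F i s ^ 2 := cs (by fun_prop) (hF i) ht
    have h3 : ∫ s in (0 : ℝ)..t, (θ i * F i s) ^ 2 / (1 + d i) =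
        θ i ^ 2 / (1 + d i) * ∫ s in (0 : ℝ)..t, F i s ^ 2 := by
      rw [← intervalIntegral.integral_const_mul]
      congr 1
      funext s
      ring
    have h4 : 0 ≤ ∫ s in (0 : ℝ)..t, F i s ^ 2 :=
      intervalIntegral.integral_nonneg ht fun s _ => sq_nonneg _
    rw [h3, mul_pow]
    have h5 := dker (hd i) ht
    have h6 : ∫ s in (0 : ℝ)..t, Real.exp (-(d i * (t - s))) ^ 2 ≤ (t + 1 / 2) / (1 + d i) := by
      rw [le_div_iff₀ hd1]
      linarith
    calc θ i ^ 2 * W (d i) (F i) t ^ 2 ≤ θ i ^ 2 * ((t + 1 / 2) / (1 + d i) *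
          ∫ s in (0 : ℝ)..t, F i s ^ 2) := by
          apply mul_le_mul_of_nonneg_left _ (sq_nonneg _)
          exact h2.trans (mul_le_mul_of_nonneg_right h6 h4)
      _ = _ := by ring
  calc ∑ i ∈ S, (θ i * W (d i) (F i) t) ^ 2 ≤
        ∑ i ∈ S, (t + 1 / 2) * ∫ s in (0 : ℝ)..t, (θ i * F i s) ^ 2 / (1 + d i) :=
        Finset.sum_le_sum fun i _ => h1 i
    _ = (t + 1 / 2) * ∫ s in (0 : ℝ)..t, ∑ i ∈ S, (θ i * F i s) ^ 2 / (1 + d i) := by
        rw [← Finset.mul_sum, intervalIntegral.integral_finsetSum]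
        intro i _
        exact (hc i).intervalIntegrable _ _
    _ ≤ (t + 1 / 2) * ∫ s in (0 : ℝ)..t, κ s := by
        apply mul_le_mul_of_nonneg_left _ (by linarith)
        apply intervalIntegral.integral_mono_on ht
          ((continuous_finsetSum _ fun i _ => hc i).intervalIntegrable _ _)
          (hκ.intervalIntegrable _ _)
        intro s hs
        refine le_trans ?_ (hb s hs).2
        exact (hb s hs).1.sum_le_tsum S fun i _ =>
          div_nonneg (sq_nonneg _) (by linarith [hd i])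

/-- clamping to `[0, T]` -/
noncomputable def cl (T t : ℝ) : ℝ := max 0 (min t T)

theorem cl_cont (T : ℝ) : Continuous (cl T) := by
  unfold cl
  fun_prop

theorem cl_mem {T : ℝ} (hT : 0 ≤ T) (t : ℝ) : cl T t ∈ Icc 0 T :=
  ⟨le_max_left _ _, max_le hT (min_le_right _ _)⟩

theorem cl_eq {T t : ℝ} (ht : t ∈ Icc 0 T) : cl T t = t := by
  unfold cl
  rw [min_eq_left ht.2, max_eq_right ht.1]

/-- the Duhamel formula -/
theorem duhamel {d T : ℝ} {w F : ℝ → ℝ} (hF : Continuous F)
    (hw : ∀ t ∈ Icc 0 T, HasDerivWithinAt w (-(d * w t) + F t) (Icc 0 T) t) :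
    ∀ t ∈ Icc 0 T, w t = Real.exp (-(d * t)) * w 0 + W d F t := by
  have hu : ∀ t ∈ Icc 0 T, HasDerivWithinAt (fun t => Real.exp (d * t) * (w t - W d F t)) 0
      (Icc 0 T) t := by
    intro t ht
    have h1 : HasDerivAt (fun r : ℝ => Real.exp (d * r)) (Real.exp (d * t) * d) t := by
      have := ((hasDerivAt_id t).const_mul d).exp
      simpa using this
    have h2 := h1.hasDerivWithinAt (s := Icc 0 T) |>.mul
      ((hw t ht).sub (W_deriv d hF t).hasDerivWithinAt)
    exact h2.congr_deriv (by simp only [Pi.sub_apply]; ring)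
  have h := constant_of_has_deriv_right_zero (fun t ht => (hu t ht).continuousWithinAt)
    (fun t ht => (hu t ⟨ht.1, ht.2.le⟩).mono_of_mem_nhdsWithin (Icc_mem_nhdsGE_of_mem ht))
  intro t ht
  have h1 := h t ht
  have h0 : W d F 0 = 0 := by
    unfold W
    exact intervalIntegral.integral_same
  rw [h0, mul_zero, Real.exp_zero, sub_zero, one_mul] at h1
  have h2 : Real.exp (-(d * t)) * Real.exp (d * t) = 1 := by
    rw [← Real.exp_add]
    simp
  calc w t = (Real.exp (-(d * t)) * Real.exp (d * t)) * (w t - W d F t) + W d F t := by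
        rw [h2]
        ring
    _ = Real.exp (-(d * t)) * (Real.exp (d * t) * (w t - W d F t)) + W d F t := by ring
    _ = _ := by rw [h1]

section
variable {I : Type} {d r : I → ℝ} {c : I → I → I → ℝ}

/-- a solution on a closed interval -/
structure CSol (d r : I → ℝ) (c : I → I → I → ℝ) (T : ℝ) (z : I → ℝ → ℝ) : Prop where
  deriv : ∀ i, ∀ t ∈ Icc 0 T,
    HasDerivWithinAt (z i) (-(d i * z i t) + bl c (fun a => z a t) (fun a => z a t) i)
      (Icc 0 T) t
  bdd : ∃ M, ∀ t ∈ Icc 0 T, Sk r 1 (fun a => z a t) ∧ nk r 1 (fun a => z a t) ≤ M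

theorem csol_of {T T' : ℝ} {z : I → ℝ → ℝ} (h : ASol2 d r c T z) (hT : T' < T) :
    CSol d r c T' z :=
  ⟨fun n t ht => (h.deriv n t ⟨ht.1, lt_of_le_of_lt ht.2 hT⟩).mono
    (fun _ hr => ⟨hr.1, lt_of_le_of_lt hr.2 hT⟩), h.bdd T' hT⟩

theorem CSol.mono {T T' : ℝ} {x : I → ℝ → ℝ} (h : CSol d r c T x) (hT : T' ≤ T) :
    CSol d r c T' x := by
  obtain ⟨M, hM⟩ := h.bdd
  exact ⟨fun n t ht => (h.deriv n t ⟨ht.1, ht.2.trans hT⟩).mono (Icc_subset_Icc_right hT),
    M, fun t ht => hM t ⟨ht.1, ht.2.trans hT⟩⟩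

/-- translation in time -/
theorem CSol.shift {T t₀ : ℝ} {x : I → ℝ → ℝ} (h : CSol d r c T x) (ht₀ : 0 ≤ t₀) :
    CSol d r c (T - t₀) (fun n t => x n (t₀ + t)) := by
  obtain ⟨M, hM⟩ := h.bdd
  refine ⟨fun n t ht => ?_, M, fun t ht => hM _ ⟨by linarith [ht.1], by linarith [ht.2]⟩⟩
  have h1 := h.deriv n (t₀ + t) ⟨by linarith [ht.1], by linarith [ht.2]⟩
  have h2 : HasDerivWithinAt (fun r => t₀ + r) 1 (Icc 0 (T - t₀)) t :=
    (hasDerivWithinAt_id t _).const_add t₀
  have h3 := HasDerivWithinAt.scomp (h := fun r => t₀ + r) (g₁ := x n) (t' := Icc 0 T) t h1 h2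
    (fun r hr => ⟨by linarith [hr.1], by linarith [hr.2]⟩)
  rw [one_smul] at h3
  exact h3

theorem CSol.xs {T : ℝ} (hT : 0 ≤ T) {z : I → ℝ → ℝ} (h : CSol d r c T z) {M : ℝ}
    (hM : ∀ t ∈ Icc 0 T, Sk r 1 (fun a => z a t) ∧ nk r 1 (fun a => z a t) ≤ M) :
    Xs r M (fun a t => z a (cl T t)) where
  cont i := by
    have h1 : ContinuousOn (z i) (Icc 0 T) := fun t ht => (h.deriv i t ht).continuousWithinAt
    exact h1.comp_continuous (cl_cont T) (cl_mem hT)
  sk t := (hM _ (cl_mem hT t)).1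
  le t := (hM _ (cl_mem hT t)).2

theorem csol_uniq (hA : Adm d r c) {T : ℝ} {x y : I → ℝ → ℝ} (hx : CSol d r c T x)
    (hy : CSol d r c T y) (h0 : ∀ n, x n 0 = y n 0) : ∀ n, ∀ t ∈ Icc 0 T, x n t = y n t := by
  obtain ⟨M, hM⟩ := hx.bdd
  obtain ⟨M', hM'⟩ := hy.bdd
  intro n t₁ ht₁
  have hT : 0 ≤ T := ht₁.1.trans ht₁.2
  have hM0 : 0 ≤ M := (nk_nonneg r 1 _).trans (hM 0 ⟨le_rfl, hT⟩).2
  have hM0' : 0 ≤ M' := (nk_nonneg r 1 _).trans (hM' 0 ⟨le_rfl, hT⟩).2
  have hX := hx.xs hT hM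
  have hY := hy.xs hT hM'
  obtain ⟨C, hC0, hC⟩ := diff_est hA
  set B : I → ℝ → ℝ := fun i s =>
    bl c (fun a => x a (cl T s)) (fun a => x a (cl T s)) i with hB
  set B' : I → ℝ → ℝ := fun i s =>
    bl c (fun a => y a (cl T s)) (fun a => y a (cl T s)) i with hB'
  have hBc : ∀ i, Continuous (B i) := fun i => bl_cont hA hX hX i
  have hBc' : ∀ i, Continuous (B' i) := fun i => bl_cont hA hY hY i
  have hdx : ∀ i, ∀ t ∈ Icc 0 T, x i t = Real.exp (-(d i * t)) * x i 0 + W (d i) (B i) t := by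
    intro i
    apply duhamel (hBc i)
    intro t ht
    have h1 := hx.deriv i t ht
    simpa only [hB, cl_eq ht] using h1
  have hdy : ∀ i, ∀ t ∈ Icc 0 T, y i t = Real.exp (-(d i * t)) * y i 0 + W (d i) (B' i) t := by
    intro i
    apply duhamel (hBc' i)
    intro t ht
    have h1 := hy.deriv i t ht
    simpa only [hB', cl_eq ht] using h1
  have hw : ∀ i, ∀ t ∈ Icc 0 T, x i t - y i t = W (d i) (fun s => B i s - B' i s) t := by
    intro i t ht
    rw [hdx i t ht, hdy i t ht, h0 i, ← W_sub (d i) (hBc i) (hBc' i)]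
    ring
  set K := C * (M + M') with hK
  have hK0 : 0 ≤ K := by positivity
  set lam := 2 * (T + 1 / 2) * K + 1 with hlam
  have hlam0 : 0 < lam := by positivity
  set A := 2 * M + 2 * M' with hAdef
  have hA0 : 0 ≤ A := by positivity
  have key : ∀ m : ℕ, ∀ t ∈ Icc 0 T, Sk r 1 (fun a => x a t - y a t) ∧
      nk r 1 (fun a => x a t - y a t) ≤ A * (1 / 2) ^ m * Real.exp (lam * t) := by
    intro m
    induction m with
    | zero =>
      intro t ht
      obtain ⟨h1, h2⟩ := sub_le (hM t ht).1 (hM' t ht).1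
      refine ⟨h1, h2.trans ?_⟩
      have h3 := (hM t ht).2
      have h4 := (hM' t ht).2
      have h5 : 1 ≤ Real.exp (lam * t) := Real.one_le_exp (mul_nonneg hlam0.le ht.1)
      rw [pow_zero, mul_one]
      nlinarith
    | succ m ih =>
      intro t ht
      have hκ : Continuous fun s => K * (A * (1 / 2) ^ m) * Real.exp (lam * s) := by fun_prop
      have h1 := duh (d := d) hA.d0 (fun i => r i ^ 1) (F := fun i s => B i s - B' i s)
        (fun i => (hBc i).sub (hBc' i)) hκ ht.1 (fun s hs => by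
          have hs' : s ∈ Icc 0 T := ⟨hs.1, hs.2.trans ht.2⟩
          obtain ⟨h2, h3⟩ := hC (fun a => x a s) (fun a => y a s) (hM s hs').1 (hM' s hs').1
          simp only [hB, hB', cl_eq hs']
          refine ⟨h2, h3.trans ?_⟩
          have h4 := (ih s hs').2
          have h5 := (hM s hs').2
          have h6 := (hM' s hs').2
          have h7 := nk_nonneg r 1 (fun a => x a s - y a s)
          calc C * ((nk r 1 (fun a => x a s) + nk r 1 (fun a => y a s)) *
                nk r 1 (fun a => x a s - y a s)) ≤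
                C * ((M + M') * (A * (1 / 2) ^ m * Real.exp (lam * s))) := by
                have h8 := nk_nonneg r 1 (fun a => x a s)
                have h9 := nk_nonneg r 1 (fun a => y a s)
                gcongr
            _ = _ := by rw [hK]; ring)
      have h2 : ∫ s in (0 : ℝ)..t, K * (A * (1 / 2) ^ m) * Real.exp (lam * s) ≤
          K * (A * (1 / 2) ^ m) * (Real.exp (lam * t) / lam) := by
        rw [intervalIntegral.integral_const_mul]
        apply mul_le_mul_of_nonneg_left _ (by positivity)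
        have h3 : ∀ s ∈ uIcc 0 t, HasDerivAt (fun s : ℝ => Real.exp (lam * s) / lam)
            (Real.exp (lam * s)) s := by
          intro s _
          have h4 : HasDerivAt (fun r : ℝ => Real.exp (lam * r)) (Real.exp (lam * s) * lam) s := by
            have := ((hasDerivAt_id s).const_mul lam).exp
            simpa using this
          refine (h4.div_const lam).congr_deriv ?_
          field_simp
        rw [intervalIntegral.integral_eq_sub_of_hasDerivAt h3
          (Continuous.intervalIntegrable (by fun_prop) _ _)]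
        have : 0 ≤ Real.exp (lam * 0) / lam := by positivity
        linarith
      apply of_finset
      intro S
      have h3 := h1 S
      have h4 : ∑ i ∈ S, (r i ^ 1 * (x i t - y i t)) ^ 2 =
          ∑ i ∈ S, (r i ^ 1 * W (d i) (fun s => B i s - B' i s) t) ^ 2 :=
        Finset.sum_congr rfl fun i _ => by rw [hw i t ht]
      rw [h4]
      refine h3.trans ?_
      have h5 : 0 ≤ t + 1 / 2 := by linarith [ht.1]
      calc (t + 1 / 2) * ∫ s in (0 : ℝ)..t, K * (A * (1 / 2) ^ m) * Real.exp (lam * s) ≤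
            (T + 1 / 2) * (K * (A * (1 / 2) ^ m) * (Real.exp (lam * t) / lam)) := by
            apply mul_le_mul _ h2 _ (by positivity)
            · linarith [ht.2]
            · exact intervalIntegral.integral_nonneg ht.1 fun s _ => by positivity
        _ = ((T + 1 / 2) * K / lam) * (A * (1 / 2) ^ m * Real.exp (lam * t)) := by ring
        _ ≤ (1 / 2) * (A * (1 / 2) ^ m * Real.exp (lam * t)) := by
            apply mul_le_mul_of_nonneg_right _ (by positivity)
            rw [div_le_iff₀ hlam0, hlam]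
            linarith
        _ = A * (1 / 2) ^ (m + 1) * Real.exp (lam * t) := by ring
  have h1 : ∀ m : ℕ, (x n t₁ - y n t₁) ^ 2 ≤ A * (1 / 2) ^ m * Real.exp (lam * t₁) := by
    intro m
    obtain ⟨h2, h3⟩ := key m t₁ ht₁
    have h4 := abs_le_nk hA.r1 h2 n
    have h5 := sq_abs (x n t₁ - y n t₁)
    rw [← h5]
    refine le_trans ?_ h3
    have h6 := Real.sq_sqrt (nk_nonneg r 1 (fun a => x a t₁ - y a t₁))
    rw [← h6]
    exact pow_le_pow_left₀ (abs_nonneg _) h4 2
  have h2 : Tendsto (fun m : ℕ => A * (1 / 2 : ℝ) ^ m * Real.exp (lam * t₁)) atTop (𝓝 0) := by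
    have h3 := ((tendsto_pow_atTop_nhds_zero_of_lt_one (r := (1 / 2 : ℝ)) (by norm_num)
      (by norm_num)).const_mul A).mul_const (Real.exp (lam * t₁))
    simpa using h3
  have h3 : (x n t₁ - y n t₁) ^ 2 ≤ 0 := ge_of_tendsto' h2 h1
  have h4 : x n t₁ - y n t₁ = 0 := by
    have := le_antisymm h3 (sq_nonneg _)
    exact pow_eq_zero_iff (two_ne_zero) |>.1 this
  linarith

end

end Pool.Agent.Y37.NE
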