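import Pool.Agent.Y37.NE.Duh

/-! Local existence and persistence of regularity for abstract quadratic systems in weighted
`ℓ²`. -/

open Set Filter Topology MeasureTheory

set_option autoImplicit false

namespace Pool.Agent.Y37.NE

open Pool.Agent.Y5.E

section
variable {I : Type} {d r : I → ℝ} {c : I → I → I → ℝ}

theorem W_cont (d : ℝ) {F : ℝ → ℝ} (hF : Continuous F) : Continuous (W d F) :=
  continuous_iff_continuousAt.2 fun t => (W_deriv d hF t).continuousAt

/-- the Picard map -/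
noncomputable def Ph (d : I → ℝ) (c : I → I → I → ℝ) (τ : ℝ) (z₀ : I → ℝ) (z : I → ℝ → ℝ)
    (i : I) (t : ℝ) : ℝ :=
  Real.exp (-(d i * cl τ t)) * z₀ i +
    W (d i) (fun s => bl c (fun a => z a s) (fun a => z a s) i) (cl τ t)

theorem Ph_cont (hA : Adm d r c) {M : ℝ} {z : I → ℝ → ℝ} (hz : Xs r M z) (τ : ℝ) (z₀ : I → ℝ)
    (i : I) : Continuous (Ph d c τ z₀ z i) := by
  unfold Ph
  have h1 := cl_cont τ
  have h2 := (W_cont (d i) (bl_cont hA hz hz i)).comp h1
  have h3 : Continuous fun t => Real.exp (-(d i * cl τ t)) * z₀ i := by fun_prop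
  exact h3.add h2

theorem Ph_bound (hA : Adm d r c) {C : ℝ} (hC0 : 0 ≤ C) {k : ℕ}
    (hC : ∀ z y : I → ℝ, Sk r (k + 1) z →
    Sk r (k + 1) y → Summable (fun i => (r i ^ (k + 1) * bl c z y i) ^ 2 / (1 + d i)) ∧
    ∑' i, (r i ^ (k + 1) * bl c z y i) ^ 2 / (1 + d i) ≤
      C * (nk r (k + 1) z * nk r 1 y + nk r 1 z * nk r (k + 1) y)) {τ : ℝ} (hτ : 0 ≤ τ)
    {z₀ : I → ℝ} (h0 : Sk r (k + 1) z₀) {M A : ℝ} {z : I → ℝ → ℝ} (hz : Xs r M z)
    (hk : ∀ t, Sk r (k + 1) (fun a => z a t) ∧ nk r (k + 1) (fun a => z a t) ≤ A) (t : ℝ) :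
    Sk r (k + 1) (fun a => Ph d c τ z₀ z a t) ∧ nk r (k + 1) (fun a => Ph d c τ z₀ z a t) ≤
      2 * nk r (k + 1) z₀ + 2 * ((τ + 1 / 2) * (τ * (C * (A * M + M * A)))) := by
  have ht := cl_mem hτ t
  have hM : 0 ≤ M := (nk_nonneg r 1 _).trans (hz.le 0)
  have hA0 : 0 ≤ A := (nk_nonneg r (k + 1) _).trans (hk 0).2
  have h1 : Sk r (k + 1) (fun i => Real.exp (-(d i * cl τ t)) * z₀ i) ∧
      nk r (k + 1) (fun i => Real.exp (-(d i * cl τ t)) * z₀ i) ≤ nk r (k + 1) z₀ := by
    apply of_finset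
    intro S
    refine le_trans (Finset.sum_le_sum fun i _ => ?_) (finset_le h0 S)
    have h2 : Real.exp (-(d i * cl τ t)) ≤ 1 := by
      rw [Real.exp_le_one_iff]
      have := mul_nonneg (hA.d0 i) ht.1
      linarith
    have h3 := (Real.exp_pos (-(d i * cl τ t))).le
    calc (r i ^ (k + 1) * (Real.exp (-(d i * cl τ t)) * z₀ i)) ^ 2 =
          Real.exp (-(d i * cl τ t)) ^ 2 * (r i ^ (k + 1) * z₀ i) ^ 2 := by ring
      _ ≤ 1 * (r i ^ (k + 1) * z₀ i) ^ 2 :=
          mul_le_mul_of_nonneg_right (pow_le_one₀ h3 h2) (sq_nonneg _)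
      _ = _ := one_mul _
  have h2 : Sk r (k + 1) (fun i => W (d i)
        (fun s => bl c (fun a => z a s) (fun a => z a s) i) (cl τ t)) ∧
      nk r (k + 1) (fun i => W (d i)
        (fun s => bl c (fun a => z a s) (fun a => z a s) i) (cl τ t)) ≤
      (τ + 1 / 2) * (τ * (C * (A * M + M * A))) := by
    apply of_finset
    intro S
    have h3 := duh (d := d) hA.d0 (fun i => r i ^ (k + 1))
      (F := fun i s => bl c (fun a => z a s) (fun a => z a s) i)
      (fun i => bl_cont hA hz hz i) (κ := fun _ => C * (A * M + M * A)) continuous_const ht.1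
      (fun s _ => by
        obtain ⟨h4, h5⟩ := hC (fun a => z a s) (fun a => z a s) (hk s).1 (hk s).1
        refine ⟨h4, h5.trans ?_⟩
        have h6 := (hk s).2
        have h7 := hz.le s
        have h8 := nk_nonneg r (k + 1) (fun a => z a s)
        have h9 := nk_nonneg r 1 (fun a => z a s)
        gcongr) S
    refine h3.trans ?_
    rw [intervalIntegral.integral_const, sub_zero, smul_eq_mul]
    have h4 := ht.1
    have h5 := ht.2
    gcongr
  obtain ⟨h3, h4⟩ := add_le h1.1 h2.1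
  refine ⟨h3, h4.trans ?_⟩
  have h5 := h1.2
  have h6 := h2.2
  linarith

theorem Ph_diff (hA : Adm d r c) {C : ℝ} (hC0 : 0 ≤ C)
    (hC : ∀ z y : I → ℝ, Sk r 1 z →
    Sk r 1 y → Summable (fun i => (r i ^ 1 * (bl c z z i - bl c y y i)) ^ 2 / (1 + d i)) ∧
    ∑' i, (r i ^ 1 * (bl c z z i - bl c y y i)) ^ 2 / (1 + d i) ≤
      C * ((nk r 1 z + nk r 1 y) * nk r 1 (fun a => z a - y a))) {τ : ℝ} (hτ : 0 ≤ τ)
    (z₀ : I → ℝ) {M δ : ℝ} {z y : I → ℝ → ℝ} (hz : Xs r M z) (hy : Xs r M y)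
    (hδ : ∀ t, nk r 1 (fun a => z a t - y a t) ≤ δ) (t : ℝ) :
    Sk r 1 (fun a => Ph d c τ z₀ z a t - Ph d c τ z₀ y a t) ∧
    nk r 1 (fun a => Ph d c τ z₀ z a t - Ph d c τ z₀ y a t) ≤
      (τ + 1 / 2) * (τ * (C * ((M + M) * δ))) := by
  have ht := cl_mem hτ t
  have hM : 0 ≤ M := (nk_nonneg r 1 _).trans (hz.le 0)
  have hδ0 : 0 ≤ δ := (nk_nonneg r 1 _).trans (hδ 0)
  apply of_finset
  intro S
  have h3 := duh (d := d) hA.d0 (fun i => r i ^ 1)
    (F := fun i s => bl c (fun a => z a s) (fun a => z a s) i -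
      bl c (fun a => y a s) (fun a => y a s) i)
    (fun i => (bl_cont hA hz hz i).sub (bl_cont hA hy hy i))
    (κ := fun _ => C * ((M + M) * δ)) continuous_const ht.1
    (fun s _ => by
      obtain ⟨h4, h5⟩ := hC (fun a => z a s) (fun a => y a s) (hz.sk s) (hy.sk s)
      refine ⟨h4, h5.trans ?_⟩
      have h6 := hz.le s
      have h7 := hy.le s
      have h8 := nk_nonneg r 1 (fun a => z a s)
      have h9 := nk_nonneg r 1 (fun a => y a s)
      have h10 := nk_nonneg r 1 (fun a => z a s - y a s)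
      have h11 := hδ s
      gcongr) S
  have h4 : ∑ i ∈ S, (r i ^ 1 * (Ph d c τ z₀ z i t - Ph d c τ z₀ y i t)) ^ 2 =
      ∑ i ∈ S, (r i ^ 1 * W (d i) (fun s => bl c (fun a => z a s) (fun a => z a s) i -
        bl c (fun a => y a s) (fun a => y a s) i) (cl τ t)) ^ 2 := by
    refine Finset.sum_congr rfl fun i _ => ?_
    rw [← W_sub (d i) (bl_cont hA hz hz i) (bl_cont hA hy hy i)]
    unfold Ph
    congr 2
    ring
  rw [h4]
  refine h3.trans ?_
  rw [intervalIntegral.integral_const, sub_zero, smul_eq_mul]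
  have h5 := ht.1
  have h6 := ht.2
  gcongr

/-- the Picard iterates -/
noncomputable def itr (d : I → ℝ) (c : I → I → I → ℝ) (τ : ℝ) (z₀ : I → ℝ) : ℕ → I → ℝ → ℝ
  | 0 => fun i _ => z₀ i
  | n + 1 => Ph d c τ z₀ (itr d c τ z₀ n)

theorem lim_bound {k : ℕ} {u : ℕ → I → ℝ} {v : I → ℝ} {A : ℝ}
    (hu : ∀ n, Sk r k (u n) ∧ nk r k (u n) ≤ A)
    (hv : ∀ i, Tendsto (fun n => u n i) atTop (𝓝 (v i))) : Sk r k v ∧ nk r k v ≤ A := by
  apply of_finset
  intro S
  have h1 : Tendsto (fun n => ∑ i ∈ S, (r i ^ k * u n i) ^ 2) atTop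
      (𝓝 (∑ i ∈ S, (r i ^ k * v i) ^ 2)) :=
    tendsto_finsetSum _ fun i _ => ((hv i).const_mul _).pow 2
  exact le_of_tendsto' h1 fun n => (finset_le (hu n).1 S).trans (hu n).2

theorem sqrt_geom {M : ℝ} (hM : 0 ≤ M) (n : ℕ) :
    √(M * (1 / 4) ^ n) = √M * (1 / 2) ^ n := by
  rw [Real.sqrt_mul hM]
  congr 1
  rw [show (1 / 4 : ℝ) = (1 / 2) ^ 2 by norm_num, ← pow_mul, mul_comm 2 n, pow_mul]
  exact Real.sqrt_sq (by positivity)

/-- local existence -/
theorem local_ex (hA : Adm d r c) (k : ℕ) (M₀ : ℝ) : ∃ τ, 0 < τ ∧ ∀ z₀ : I → ℝ,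
    Sk r (k + 1) z₀ → nk r 1 z₀ ≤ M₀ → ∃ z : I → ℝ → ℝ, (∀ i, z i 0 = z₀ i) ∧
      CSol d r c τ z ∧ ∀ t ∈ Icc 0 τ, Sk r (k + 1) (fun a => z a t) ∧
        nk r (k + 1) (fun a => z a t) ≤ 4 * nk r (k + 1) z₀ := by
  obtain ⟨C₀, hC00, hC₀⟩ := est' hA 0
  obtain ⟨C₁, hC10, hC₁⟩ := est' hA k
  obtain ⟨C₂, hC20, hC₂⟩ := diff_est hA
  simp only [zero_add] at hC₀
  set M := |M₀| with hMdef
  have hM : 0 ≤ M := abs_nonneg _
  set K := C₀ + C₁ + C₂ with hK
  have hK0 : 0 ≤ K := by positivity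
  set τ := 1 / (256 * (K * M + 1)) with hτdef
  have hτ : 0 < τ := by positivity
  have hτK : τ * (K * M) ≤ 1 / 256 := by
    rw [hτdef, div_mul_eq_mul_div, one_mul, div_le_div_iff₀ (by positivity) (by norm_num)]
    linarith
  have hτ1 : τ + 1 / 2 ≤ 1 := by
    have h1 : τ ≤ 1 / 256 := by
      rw [hτdef]
      apply one_div_le_one_div_of_le (by norm_num)
      have : 0 ≤ K * M := by positivity
      linarith
    linarith
  have hsm : ∀ C, C ≤ K → ∀ x : ℝ, 0 ≤ x → (τ + 1 / 2) * (τ * (C * (M * x))) ≤ 1 / 256 * x := by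
    intro C hC x hx
    have h1 : τ * (C * (M * x)) ≤ 1 / 256 * x := by
      calc τ * (C * (M * x)) = τ * (C * M) * x := by ring
        _ ≤ τ * (K * M) * x := by gcongr
        _ ≤ 1 / 256 * x := by gcongr
    calc (τ + 1 / 2) * (τ * (C * (M * x))) ≤ (τ + 1 / 2) * (1 / 256 * x) := by
          gcongr
      _ ≤ 1 * (1 / 256 * x) := by gcongr
      _ = _ := one_mul _
  refine ⟨τ, hτ, fun z₀ hk0 hM0 => ?_⟩
  have h10 : Sk r 1 z₀ := Sk_mono hA.r1 (by omega) hk0
  have hM0' : nk r 1 z₀ ≤ M := hM0.trans (le_abs_self _)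
  set N := nk r (k + 1) z₀ with hN
  have hN0 : 0 ≤ N := nk_nonneg _ _ _
  set u := itr d c τ z₀ with hu
  -- the iterates are bounded
  have hinv : ∀ n, Xs r (4 * M) (u n) ∧ ∀ t, Sk r (k + 1) (fun a => u n a t) ∧
      nk r (k + 1) (fun a => u n a t) ≤ 4 * N := by
    intro n
    induction n with
    | zero =>
      refine ⟨⟨fun i => continuous_const, fun t => h10, fun t => ?_⟩, fun t => ⟨hk0, ?_⟩⟩
      · show nk r 1 z₀ ≤ 4 * M
        linarith
      · show nk r (k + 1) z₀ ≤ 4 * N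
        linarith
    | succ n ih =>
      have hb := Ph_bound hA hC10 hC₁ hτ.le hk0 ih.1 ih.2
      have hb1 := Ph_bound (k := 0) hA hC00 (by simpa only [zero_add] using hC₀) hτ.le
        (by simpa only [zero_add] using h10) ih.1
        (fun t => ⟨by simpa only [zero_add] using ih.1.sk t,
          by simpa only [zero_add] using ih.1.le t⟩)
      simp only [zero_add] at hb1
      refine ⟨⟨fun i => Ph_cont hA ih.1 τ z₀ i, fun t => (hb1 t).1, fun t => ?_⟩,
        fun t => ⟨(hb t).1, ?_⟩⟩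
      · refine (hb1 t).2.trans ?_
        have h1 := hsm C₀ (by rw [hK]; linarith) (32 * M) (by positivity)
        have h2 : C₀ * (4 * M * (4 * M) + 4 * M * (4 * M)) = C₀ * (M * (32 * M)) := by ring
        rw [h2]
        linarith
      · refine (hb t).2.trans ?_
        have h1 := hsm C₁ (by rw [hK]; linarith) (32 * N) (by positivity)
        have h2 : C₁ * (4 * N * (4 * M) + 4 * M * (4 * N)) = C₁ * (M * (32 * N)) := by ring
        rw [h2]
        linarith
  have hcontr : ∀ {z y : I → ℝ → ℝ} {δ : ℝ}, Xs r (4 * M) z → Xs r (4 * M) y →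
      (∀ t, nk r 1 (fun a => z a t - y a t) ≤ δ) → ∀ t,
      Sk r 1 (fun a => Ph d c τ z₀ z a t - Ph d c τ z₀ y a t) ∧
      nk r 1 (fun a => Ph d c τ z₀ z a t - Ph d c τ z₀ y a t) ≤ δ * (1 / 4) := by
    intro z y δ hz hy hδ t
    have hδ0 : 0 ≤ δ := (nk_nonneg r 1 _).trans (hδ 0)
    obtain ⟨h1, h2⟩ := Ph_diff hA hC20 hC₂ hτ.le z₀ hz hy hδ t
    refine ⟨h1, h2.trans ?_⟩
    have h3 := hsm C₂ (by rw [hK]; linarith) (8 * δ) (by positivity)
    have h4 : C₂ * ((4 * M + 4 * M) * δ) = C₂ * (M * (8 * δ)) := by ring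
    rw [h4]
    linarith
  have hstep : ∀ n t, Sk r 1 (fun a => u (n + 1) a t - u n a t) ∧
      nk r 1 (fun a => u (n + 1) a t - u n a t) ≤ 16 * M * (1 / 4) ^ n := by
    intro n
    induction n with
    | zero =>
      intro t
      obtain ⟨h1, h2⟩ := sub_le ((hinv 1).1.sk t) ((hinv 0).1.sk t)
      refine ⟨h1, h2.trans ?_⟩
      have h3 := (hinv 1).1.le t
      have h4 := (hinv 0).1.le t
      rw [pow_zero, mul_one]
      linarith
    | succ n ih =>
      intro t
      obtain ⟨h1, h2⟩ := hcontr (hinv (n + 1)).1 (hinv n).1 (fun t => (ih t).2) t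
      refine ⟨h1, h2.trans (le_of_eq ?_)⟩
      rw [pow_succ]
      ring
  have hcau : ∀ l n t, Sk r 1 (fun a => u n a t - u (n + l) a t) ∧
      nk r 1 (fun a => u n a t - u (n + l) a t) ≤ 64 * M * (1 / 4) ^ n := by
    intro l
    induction l with
    | zero =>
      intro n t
      have h1 : (fun a => u n a t - u (n + 0) a t) = fun _ => 0 := by
        funext a
        simp
      rw [h1]
      refine ⟨Sk_zero _ _, ?_⟩
      have h2 : nk r 1 (fun _ : I => (0 : ℝ)) = 0 := by simp [nk]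
      rw [h2]
      positivity
    | succ l ih =>
      intro n t
      obtain ⟨h1, h2⟩ := hstep n t
      obtain ⟨h3, h4⟩ := ih (n + 1) t
      obtain ⟨h5, h6⟩ := sub_le h3 h1
      have h7 : (fun a => u n a t - u (n + (l + 1)) a t) =
          fun a => (u (n + 1) a t - u (n + 1 + l) a t) - (u (n + 1) a t - u n a t) := by
        funext a
        rw [show n + (l + 1) = n + 1 + l by omega]
        ring
      rw [h7]
      refine ⟨h5, h6.trans ?_⟩
      rw [pow_succ] at h4
      linarith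
  have hcs : ∀ i t, CauchySeq fun n => u n i t := by
    intro i t
    apply cauchySeq_of_le_geometric (1 / 2) (√(16 * M)) (by norm_num)
    intro n
    rw [dist_comm, Real.dist_eq]
    have h1 := abs_le_nk hA.r1 (hstep n t).1 i
    refine h1.trans ?_
    rw [← sqrt_geom (by positivity)]
    exact Real.sqrt_le_sqrt (hstep n t).2
  have hlim : ∀ i t, ∃ x, Tendsto (fun n => u n i t) atTop (𝓝 x) := fun i t =>
    cauchySeq_tendsto_of_complete (hcs i t)
  choose z hz using hlim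
  have hzd : ∀ n t, Sk r 1 (fun a => u n a t - z a t) ∧
      nk r 1 (fun a => u n a t - z a t) ≤ 64 * M * (1 / 4) ^ n := by
    intro n t
    apply lim_bound (u := fun l a => u n a t - u (n + l) a t) (fun l => hcau l n t)
    intro a
    have h1 : Tendsto (fun l => u (n + l) a t) atTop (𝓝 (z a t)) := by
      have h2 := (tendsto_add_atTop_iff_nat n).2 (hz a t)
      simpa only [add_comm] using h2
    exact tendsto_const_nhds.sub h1
  have hzx : Xs r (4 * M) z := by
    have h1 : ∀ t, Sk r 1 (fun a => z a t) ∧ nk r 1 (fun a => z a t) ≤ 4 * M := fun t =>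
      lim_bound (u := fun n a => u n a t) (fun n => ⟨(hinv n).1.sk t, (hinv n).1.le t⟩)
        fun i => hz i t
    refine ⟨fun i => ?_, fun t => (h1 t).1, fun t => (h1 t).2⟩
    have h2 : TendstoUniformly (fun n => u n i) (z i) atTop := by
      rw [Metric.tendstoUniformly_iff]
      intro ε hε
      have h3 : Tendsto (fun n : ℕ => √(64 * M) * (1 / 2 : ℝ) ^ n) atTop (𝓝 0) := by
        have h4 := (tendsto_pow_atTop_nhds_zero_of_lt_one (r := (1 / 2 : ℝ)) (by norm_num)
          (by norm_num)).const_mul (√(64 * M))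
        simpa using h4
      filter_upwards [h3.eventually (gt_mem_nhds hε)] with n hn t
      rw [dist_comm, Real.dist_eq]
      refine lt_of_le_of_lt ?_ hn
      rw [← sqrt_geom (by positivity)]
      exact (abs_le_nk hA.r1 (hzd n t).1 i).trans (Real.sqrt_le_sqrt (hzd n t).2)
    exact h2.continuous (Frequently.of_forall fun n => (hinv n).1.cont i)
  have hfix : ∀ i t, z i t = Ph d c τ z₀ z i t := by
    intro i t
    have h1 : Tendsto (fun n => u (n + 1) i t) atTop (𝓝 (Ph d c τ z₀ z i t)) := by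
      rw [tendsto_iff_dist_tendsto_zero]
      have h3 : Tendsto (fun n : ℕ => √(16 * M) * (1 / 2 : ℝ) ^ n) atTop (𝓝 0) := by
        have h4 := (tendsto_pow_atTop_nhds_zero_of_lt_one (r := (1 / 2 : ℝ)) (by norm_num)
          (by norm_num)).const_mul (√(16 * M))
        simpa using h4
      refine squeeze_zero (fun _ => dist_nonneg) (fun n => ?_) h3
      rw [Real.dist_eq, ← sqrt_geom (by positivity)]
      obtain ⟨h5, h6⟩ := hcontr (hinv n).1 hzx (fun t => (hzd n t).2) t
      refine (abs_le_nk hA.r1 h5 i).trans (Real.sqrt_le_sqrt (h6.trans (le_of_eq ?_)))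
      ring
    exact tendsto_nhds_unique ((tendsto_add_atTop_iff_nat 1).2 (hz i t)) h1
  refine ⟨z, fun i => ?_, ⟨fun i t ht => ?_, 4 * M, fun t _ => ⟨hzx.sk t, hzx.le t⟩⟩,
    fun t _ => lim_bound (u := fun n a => u n a t) (fun n => (hinv n).2 t) fun i => hz i t⟩
  · rw [hfix i 0]
    unfold Ph
    rw [cl_eq ⟨le_rfl, hτ.le⟩]
    unfold W
    simp
  · have hB := bl_cont hA hzx hzx i
    have h1 : HasDerivAt (fun t => Real.exp (-(d i * t)) * z₀ i +
        W (d i) (fun s => bl c (fun a => z a s) (fun a => z a s) i) t)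
        (Real.exp (-(d i * t)) * -d i * z₀ i + (-(d i *
          W (d i) (fun s => bl c (fun a => z a s) (fun a => z a s) i) t) +
          bl c (fun a => z a t) (fun a => z a t) i)) t := by
      have h2 : HasDerivAt (fun t : ℝ => Real.exp (-(d i * t))) (Real.exp (-(d i * t)) * -d i) t := by
        have := ((hasDerivAt_id t).const_mul (d i)).neg.exp
        simpa using this
      exact (h2.mul_const (z₀ i)).add (W_deriv (d i) hB t)
    have h2 : ∀ s ∈ Icc 0 τ, z i s = Real.exp (-(d i * s)) * z₀ i +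
        W (d i) (fun s => bl c (fun a => z a s) (fun a => z a s) i) s := by
      intro s hs
      rw [hfix i s]
      unfold Ph
      rw [cl_eq hs]
    have h3 := h1.hasDerivWithinAt (s := Icc 0 τ)
    have h4 := h3.congr h2 (h2 t ht)
    refine h4.congr_deriv ?_
    rw [h2 t ht]
    ring

/-- persistence of regularity -/
theorem persist (hA : Adm d r c) (k : ℕ) {T : ℝ} {x : I → ℝ → ℝ} (hx : CSol d r c T x)
    (h0 : Sk r (k + 1) (fun a => x a 0)) :
    ∃ M, ∀ t ∈ Icc 0 T, Sk r (k + 1) (fun a => x a t) ∧ nk r (k + 1) (fun a => x a t) ≤ M := by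
  obtain ⟨M, hM⟩ := hx.bdd
  obtain ⟨τ, hτ, hloc⟩ := local_ex hA k M
  have key : ∀ m : ℕ, ∀ t ∈ Icc 0 T, t ≤ m * τ → Sk r (k + 1) (fun a => x a t) ∧
      nk r (k + 1) (fun a => x a t) ≤ 4 ^ m * nk r (k + 1) (fun a => x a 0) := by
    intro m
    induction m with
    | zero =>
      intro t ht htm
      rw [Nat.cast_zero, zero_mul] at htm
      have h1 : t = 0 := le_antisymm htm ht.1
      subst h1
      exact ⟨h0, by rw [pow_zero, one_mul]⟩
    | succ m ih =>
      intro t ht htm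
      set t₀ := max 0 (t - τ) with ht₀
      have h1 : 0 ≤ t₀ := le_max_left _ _
      have h2 : t₀ ≤ t := max_le ht.1 (by linarith)
      have h3 : t₀ ≤ m * τ := by
        apply max_le (by positivity)
        push_cast at htm
        linarith
      have h4 : t - τ ≤ t₀ := le_max_right _ _
      have h5 : t₀ ∈ Icc 0 T := ⟨h1, h2.trans ht.2⟩
      obtain ⟨h6, h7⟩ := ih t₀ h5 h3
      obtain ⟨y, hy0, hy, hyk⟩ := hloc (fun a => x a t₀) h6 (hM t₀ h5).2
      have h8 : CSol d r c (t - t₀) (fun n s => x n (t₀ + s)) := (hx.mono ht.2).shift h1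
      have h9 : CSol d r c (t - t₀) y := hy.mono (by linarith)
      have h10 : ∀ n, x n t = y n (t - t₀) := by
        intro n
        have h11 := csol_uniq hA h8 h9 (fun n => by simp [hy0]) n (t - t₀)
          ⟨by linarith, le_rfl⟩
        simpa using h11
      obtain ⟨h11, h12⟩ := hyk (t - t₀) ⟨by linarith, by linarith⟩
      have h13 : (fun a => x a t) = fun a => y a (t - t₀) := funext h10
      rw [h13]
      refine ⟨h11, h12.trans ?_⟩
      rw [pow_succ]
      linarith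
  obtain ⟨m, hm⟩ := exists_nat_ge (T / τ)
  refine ⟨4 ^ m * nk r (k + 1) (fun a => x a 0), fun t ht => key m t ht ?_⟩
  rw [div_le_iff₀ hτ] at hm
  exact ht.2.trans hm

end

end Pool.Agent.Y37.NE
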